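import Mathlib
import Pool.Agent.H99.Bd.Fin

/-!
# Vojta's inequality with truncated counting function for points of bounded degree: few exceptions,
# uniformly in the divisor and in the set of primes

Let `D` be the sum of `q ≥ 2 r + 1` rational points of the projective line over `ℚ`. Vojta's
conjecture with truncated counting function says that the algebraic points `α` of degree `≤ r` satisfy
`(q - 2 - ε) h(α) ≤ N^(1)_S(D, α) + d(α) + O(1)`. As `d(α) ≤ (2 r - 2) h(α) + O(1)`, it implies that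
`h(α)` is at most a constant times `N^(1)_S(D, α) + O(1)`. The number `2 r + 1` is best possible here,
because for `q = 2 r` there are infinite families of integral points of degree `r`.

We prove: for all `m` and `ε > 0` there are `κ`, `δ > 0` and `C` such that for all `X ≥ 2` and ALL `D`
of height at most `X ^ δ`, there are at most `C X ^ ε` algebraic numbers `α` of degree `≤ r` with
`κ (log X + h(D)) < h(α) ≤ X ^ δ` for which there is SOME set `S` of at most `m` primes `≤ X` such that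
`N^(1)_S(D, α) ≤ log X` and at most `m` different exponents occur outside `S` in the factorisations of
the norms `F(a_i, b_i)` (`F` is the minimal form of `α`, `(a_i : b_i)` are the points of `D`).

In particular the points of degree `≤ r` which are integral with respect to `D` outside some set of
`m` primes `≤ X` are counted for all these sets together.

Method: every `r + 2` of the norms satisfy a linear relation. It is split into minimal vanishing
sums; by the determinant method with unbounded exponents (`Pool.Agent.Y902.GN.gq`) the norms in such a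
sum are, up to factors of small height, proportional to one of few vectors. As `q ≥ 2 r + 1`, the
minimal sums connect all the points of `D`. So two minimal forms `F`, `G` in the same class have values
whose double quotients have small height at all points of `D`; if `F ≠ ± G` are irreducible, then the
forms `A F + B G` of degree `2 r - 1` (`deg A = deg B = r - 1`) fill the whole space, and the linear
system for the values of `F` at `2 r + 1` points given by the vanishing of the divided difference of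
order `2 r` of all `A F`, `B G` has rank `2 r` and small coefficients (Cramer's rule): the quotients of
the values of `F` have small height, so that `F` is small, a contradiction.
-/

set_option autoImplicit false

namespace Pool.Agent.Results.MP_71c16a_nt.FewPointsOfBoundedDegree

open Finset Polynomial IsDedekindDomain NumberField IntermediateField
open Pool.Agent.H99.Bd (hv Cand Dist dH dH_le value_le main exists_rep pp_of' sum_log_le coeff_le
  height_le exists_field isIntegral_of_root natDegree_pos_of_root finite_of_le hv_range hv_eq_zero)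

/-- The value at `p = (a, b)` of the binary form `∑ k, c_k x ^ k y ^ (n - k)` attached to the
polynomial `f = ∑ k, c_k x ^ k` of degree `n`. -/
def value (f : ℤ[X]) (p : ℤ × ℤ) : ℤ :=
  ∑ k ∈ range (f.natDegree + 1), f.coeff k * (p.1 ^ k * p.2 ^ (f.natDegree - k))

/-- The pairs `P i = (a_i, b_i)` are coprime coordinates of `q` different rational points
`(a_i : b_i)` of the projective line. -/
def IsDivisor {q : ℕ} (P : Fin q → ℤ × ℤ) : Prop :=
  (∀ i, IsCoprime (P i).1 (P i).2) ∧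
    ∀ i j, i ≠ j → (P i).1 * (P j).2 ≠ (P j).1 * (P i).2

/-- The height of the divisor: the maximum of the logarithmic heights `log max(|a_i|, |b_i|)`. -/
noncomputable def divisorHeight {q : ℕ} (P : Fin q → ℤ × ℤ) : ℝ :=
  Real.log ((univ.sup fun i => max (P i).1.natAbs (P i).2.natAbs : ℕ) : ℝ)

/-- The point `(x : 1)` over the number field `K` and the rational point `(p.1 : p.2)` (`p` coprime)
have the same reduction modulo the prime `v` of `K`. -/
def Meets {K : Type*} [Field K] [NumberField K] (v : HeightOneSpectrum (𝓞 K)) (p : ℤ × ℤ)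
    (x : K) : Prop :=
  v.valuation K ((p.2 : K) * x - p.1) < max (v.valuation K x) 1

/-- The truncated counting function of `x` over the number field `K`, normalised by the degree: the
sum of `log |𝓞 K / v| / [K : ℚ]` over the primes `v` of `K` which do not lie above a prime in `S` and
modulo which `x` meets one of the points of the divisor. -/
noncomputable def truncCount (K : Type*) [Field K] [NumberField K] (S : Finset ℕ) {q : ℕ}
    (P : Fin q → ℤ × ℤ) (x : K) : ℝ :=
  (∑ᶠ v ∈ {v : HeightOneSpectrum (𝓞 K) | (∀ l ∈ S, (l : 𝓞 K) ∉ v.asIdeal) ∧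
    ∃ i, Meets v (P i) x}, Real.log (Ideal.absNorm v.asIdeal)) / Module.finrank ℚ K

open Classical in
/-- The truncated counting function `N^(1)_S(D, α)` of the algebraic number `α`, computed in its
residue field `ℚ(α)` (junk value `0` if `α` is not algebraic). -/
noncomputable def counting (S : Finset ℕ) {q : ℕ} (P : Fin q → ℤ × ℤ) (α : ℂ) : ℝ :=
  if h : IsIntegral ℚ α then
    have : FiniteDimensional ℚ ℚ⟮α⟯ := adjoin.finiteDimensional h
    have : NumberField ℚ⟮α⟯ := {}
    truncCount ℚ⟮α⟯ S P (AdjoinSimple.gen ℚ α)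
  else 0

/-- The exponents of the primes not in `S` in the factorisations of the values of `f` at the points
of the divisor. -/
def exponents (S : Finset ℕ) {q : ℕ} (P : Fin q → ℤ × ℤ) (f : ℤ[X]) : Finset ℕ :=
  univ.biUnion fun i : Fin q => ((value f (P i)).natAbs.primeFactors.filter
    (fun l => l ∉ S)).image (value f (P i)).natAbs.factorization

/-- The algebraic numbers `α` of degree at most `r`, not in the divisor, with
`κ (log X + h(D)) < h(α) ≤ X ^ δ`, for which there is a set `S` of at most `m` primes `≤ X` such that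
`N^(1)_S(D, α) ≤ log X` and that at most `m` different exponents of primes not in `S` occur in the
values of the minimal form of `α` at the points of the divisor. Here `f` is the primitive minimal
polynomial of `α` over `ℤ` (it is unique up to the sign). -/
def Exceptional (r m : ℕ) (κ δ X : ℝ) {q : ℕ} (P : Fin q → ℤ × ℤ) : Set ℂ :=
  {α | (∃ f : ℤ[X], Irreducible f ∧ aeval α f = 0 ∧ f.natDegree ≤ r ∧
      (∀ i, value f (P i) ≠ 0) ∧
      ∃ S : Finset ℕ, (∀ l ∈ S, l.Prime ∧ (l : ℝ) ≤ X) ∧ S.card ≤ m ∧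
        counting S P α ≤ Real.log X ∧ (exponents S P f).card ≤ m) ∧
    κ * (Real.log X + divisorHeight P) < absLogHeight₁ α ∧ absLogHeight₁ α ≤ X ^ δ}

/-- **Theorem.** Let `q ≥ 2 r + 1`. For all `m` and `ε > 0` there are `κ`, `δ > 0` and `C > 0` such
that for all `X ≥ 2` and all divisors `D` consisting of `q` different rational points of the projective
line, of height at most `X ^ δ`, the set `Exceptional r m κ δ X D` is finite and has at most `C X ^ ε`
elements. -/
theorem result (r q m : ℕ) (hq : 2 * r + 1 ≤ q) (ε : ℝ) (hε : 0 < ε) :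
    ∃ κ δ C : ℝ, 0 < δ ∧ 0 < C ∧ ∀ X : ℝ, 2 ≤ X → ∀ P : Fin q → ℤ × ℤ, IsDivisor P →
      divisorHeight P ≤ X ^ δ →
        (Exceptional r m κ δ X P).Finite ∧
          ((Exceptional r m κ δ X P).ncard : ℝ) ≤ C * X ^ ε := by
  classical
  obtain ⟨N, hN⟩ : ∃ N, N = q * (m + m) := ⟨_, rfl⟩
  obtain ⟨ε1, hε1⟩ : ∃ ε1 : ℝ, ε1 = ε / (r + 1 : ℕ) := ⟨_, rfl⟩
  have hε10 : 0 < ε1 := by rw [hε1]; positivity
  -- the constants for each degree
  have hall : ∀ d : Fin (r + 1), ∃ (κ : ℕ) (δ K : ℝ), 0 < δ ∧ 0 < K ∧ (1 ≤ d.1 → ∀ Y : ℕ, 1 ≤ Y →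
      ∀ H : ℕ, 1 ≤ H → (H : ℝ) ≤ Real.exp ((Y : ℝ) ^ δ) → ∀ P : Fin q → ℤ × ℤ, Dist P →
      (∀ i, |(P i).1| ≤ (H : ℤ) ∧ |(P i).2| ≤ (H : ℤ)) → ∀ 𝓕 : Finset ℤ[X],
      (∀ f ∈ 𝓕, Cand d q N 0 δ κ Y H P f) → (∀ f ∈ 𝓕, ∀ g ∈ 𝓕, f ≠ g → f ≠ -g) →
      (𝓕.card : ℝ) ≤ K * (Y : ℝ) ^ ε1) := by
    intro d
    by_cases hd : 1 ≤ d.1
    · obtain ⟨κ, δ, K, h1, h2, h3⟩ := main d.1 q N 0 hd (by have := d.2; omega) ε1 hε10
      exact ⟨κ, δ, K, h1, h2, fun _ => h3⟩
    · exact ⟨0, 1, 1, one_pos, one_pos, fun h => absurd h hd⟩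
  choose κ1 δ1 K1 hδ1 hK1 H1 using hall
  obtain ⟨κ2, hκ2⟩ : ∃ κ2 : ℕ, ∀ d, κ1 d ≤ κ2 := ⟨∑ d, κ1 d, fun d =>
    Finset.single_le_sum (f := κ1) (fun _ _ => Nat.zero_le _) (mem_univ d)⟩
  obtain ⟨δ, hδ, hδd⟩ : ∃ δ : ℝ, 0 < δ ∧ ∀ d, δ ≤ δ1 d := by
    refine ⟨univ.inf' univ_nonempty δ1, ?_, fun A => Finset.inf'_le _ (mem_univ A)⟩
    rw [Finset.lt_inf'_iff]
    exact fun A _ => hδ1 A
  obtain ⟨Cr, hCr⟩ : ∃ Cr : ℕ, Cr = 2 * r ^ 2 + 3 * r + 1 := ⟨_, rfl⟩
  obtain ⟨c, hc1, hc⟩ : ∃ c : ℕ, 1 ≤ c ∧ (Cr : ℝ) ≤ (c : ℝ) ^ δ := by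
    have h1 : Filter.Tendsto (fun c : ℕ => (c : ℝ) ^ δ) Filter.atTop Filter.atTop :=
      (tendsto_rpow_atTop hδ).comp tendsto_natCast_atTop_atTop
    obtain ⟨c, h2, h3⟩ := ((h1.eventually_ge_atTop (Cr : ℝ)).and
      (Filter.eventually_ge_atTop 1)).exists
    exact ⟨c, h3, h2⟩
  have hc1r : (1 : ℝ) ≤ c := by exact_mod_cast hc1
  obtain ⟨w, hw⟩ : ∃ w : ℕ, w = (2 * c + 1) * (r + 1) + 2 := ⟨_, rfl⟩
  obtain ⟨κ, hκ⟩ : ∃ κ : ℕ, κ = r + 1 + w * κ2 := ⟨_, rfl⟩
  obtain ⟨K, hK⟩ : ∃ K : ℝ, K = r * ∑ d, K1 d + 1 := ⟨_, rfl⟩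
  have hK0 : 0 < K := by
    have : 0 ≤ ∑ d, K1 d := Finset.sum_nonneg fun d _ => (hK1 d).le
    rw [hK]
    positivity
  refine ⟨κ, δ, K * (2 * c : ℝ) ^ ε, hδ, by positivity, fun X hX P hP hPH => ?_⟩
  have hX0 : 0 < X := by linarith
  have hX1 : 1 ≤ X := by linarith
  have hlogX : 0 < Real.log X := Real.log_pos (by linarith)
  have hXδ : (1 : ℝ) ≤ X ^ δ := Real.one_le_rpow hX1 hδ.le
  -- `Y`
  obtain ⟨Y, hY⟩ : ∃ Y : ℕ, Y = (c * ⌈X⌉₊) ^ (r + 1) := ⟨_, rfl⟩
  have hceil : X ≤ (⌈X⌉₊ : ℝ) := Nat.le_ceil X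
  have hceil2 : (⌈X⌉₊ : ℝ) < X + 1 := Nat.ceil_lt_add_one hX0.le
  have hcX2 : X ≤ c * (⌈X⌉₊ : ℝ) := by
    calc X = 1 * X := (one_mul X).symm
      _ ≤ c * (⌈X⌉₊ : ℝ) := mul_le_mul hc1r hceil hX0.le (by linarith)
  have hcX1 : (1 : ℝ) ≤ c * ⌈X⌉₊ := by linarith
  have hcX3 : (c : ℝ) * ⌈X⌉₊ ≤ 2 * c * X := by
    calc (c : ℝ) * ⌈X⌉₊ ≤ c * (2 * X) := mul_le_mul_of_nonneg_left (by linarith) (by linarith)
      _ = 2 * c * X := by ring
  have hYr : (Y : ℝ) = (c * (⌈X⌉₊ : ℝ)) ^ (r + 1) := by rw [hY]; push_cast; rfl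
  have hYcX : c * X ≤ (Y : ℝ) := by
    rw [hYr]
    calc (c : ℝ) * X ≤ c * ⌈X⌉₊ := mul_le_mul_of_nonneg_left hceil (by positivity)
      _ ≤ (c * (⌈X⌉₊ : ℝ)) ^ (r + 1) := le_self_pow₀ hcX1 (by omega)
  have hYX : X ≤ (Y : ℝ) := by
    rw [hYr]
    exact hcX2.trans (le_self_pow₀ hcX1 (by omega))
  have hYXr : X ^ r ≤ (Y : ℝ) := by
    rw [hYr]
    calc X ^ r ≤ (c * (⌈X⌉₊ : ℝ)) ^ r := pow_le_pow_left₀ hX0.le hcX2 _
      _ ≤ (c * (⌈X⌉₊ : ℝ)) ^ (r + 1) := pow_le_pow_right₀ hcX1 (by omega)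
  have hY1 : 1 ≤ Y := by
    have : (1 : ℝ) ≤ (Y : ℝ) := by linarith
    exact_mod_cast this
  have hYr1 : (1 : ℝ) ≤ (Y : ℝ) := by exact_mod_cast hY1
  have hYδ : (Cr : ℝ) * X ^ δ ≤ (Y : ℝ) ^ δ := by
    calc (Cr : ℝ) * X ^ δ ≤ (c : ℝ) ^ δ * X ^ δ := mul_le_mul_of_nonneg_right hc (by positivity)
      _ = (c * X) ^ δ := (Real.mul_rpow (by positivity) hX0.le).symm
      _ ≤ _ := Real.rpow_le_rpow (by positivity) hYcX hδ.le
  have hYδd : ∀ d, (Cr : ℝ) * X ^ δ ≤ (Y : ℝ) ^ δ1 d := fun d =>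
    hYδ.trans (Real.rpow_le_rpow_of_exponent_le hYr1 (hδd d))
  have hYε : (Y : ℝ) ^ ε1 ≤ (2 * c : ℝ) ^ ε * X ^ ε := by
    rw [hYr, ← Real.rpow_natCast, ← Real.rpow_mul (by positivity), hε1]
    have h1 : ((r + 1 : ℕ) : ℝ) * (ε / ((r + 1 : ℕ) : ℝ)) = ε := by
      field_simp
    rw [h1, ← Real.mul_rpow (by positivity) hX0.le]
    exact Real.rpow_le_rpow (by positivity) hcX3 hε.le
  have hY2X : (Y : ℝ) + 2 ≤ X ^ w := by
    have h1 : (c : ℝ) * ⌈X⌉₊ ≤ X ^ (2 * c + 1) := by
      have h2 : ((2 * c : ℕ) : ℝ) ≤ X ^ (2 * c) := by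
        have h3 : 2 * c ≤ 2 ^ (2 * c) := (Nat.lt_two_pow_self).le
        have h4 : ((2 * c : ℕ) : ℝ) ≤ 2 ^ (2 * c) := by exact_mod_cast h3
        exact h4.trans (pow_le_pow_left₀ (by norm_num) hX _)
      push_cast at h2
      calc (c : ℝ) * ⌈X⌉₊ ≤ 2 * c * X := hcX3
        _ ≤ X ^ (2 * c) * X := mul_le_mul_of_nonneg_right h2 hX0.le
        _ = X ^ (2 * c + 1) := (pow_succ _ _).symm
    have h5 : (Y : ℝ) ≤ X ^ ((2 * c + 1) * (r + 1)) := by
      rw [hYr, pow_mul]
      exact pow_le_pow_left₀ (by positivity) h1 _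
    have h6 : (1 : ℝ) ≤ X ^ ((2 * c + 1) * (r + 1)) := one_le_pow₀ hX1
    have h7 : (4 : ℝ) ≤ X ^ 2 := by
      calc (4 : ℝ) = 2 ^ 2 := by norm_num
        _ ≤ X ^ 2 := pow_le_pow_left₀ (by norm_num) hX _
    have h8 : X ^ ((2 * c + 1) * (r + 1)) * 4 ≤ X ^ ((2 * c + 1) * (r + 1)) * X ^ 2 :=
      mul_le_mul_of_nonneg_left h7 (by linarith)
    rw [hw, pow_add]
    linarith
  -- the height of the divisor
  obtain ⟨H, hH⟩ : ∃ H : ℕ, H = dH P := ⟨_, rfl⟩
  have hPd : ∀ i, |(P i).1| ≤ (H : ℤ) ∧ |(P i).2| ≤ (H : ℤ) := by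
    rw [hH]
    exact dH_le P
  have hH1 : 1 ≤ H := by
    obtain ⟨i0⟩ : Nonempty (Fin q) := ⟨⟨0, by omega⟩⟩
    by_contra hcon
    have h0 : H = 0 := by omega
    have h1 := hPd i0
    rw [h0] at h1
    have h2 : (P i0).1 = 0 := by
      have := h1.1
      rw [Nat.cast_zero] at this
      exact abs_eq_zero.1 (le_antisymm this (abs_nonneg _))
    have h3 : (P i0).2 = 0 := by
      have := h1.2
      rw [Nat.cast_zero] at this
      exact abs_eq_zero.1 (le_antisymm this (abs_nonneg _))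
    obtain ⟨a, b, hab⟩ := hP.1 i0
    rw [h2, h3, mul_zero, mul_zero, add_zero] at hab
    exact zero_ne_one hab
  have hH1r : (1 : ℝ) ≤ H := by exact_mod_cast hH1
  have hdiv : divisorHeight P = Real.log H := by
    rw [hH]
    rfl
  have hlogH : 0 ≤ Real.log H := Real.log_nonneg hH1r
  have hHexp : (H : ℝ) ≤ Real.exp (X ^ δ) := by
    rw [← Real.exp_log (by linarith : (0 : ℝ) < H)]
    apply Real.exp_le_exp.2
    rw [← hdiv]
    exact hPH
  have hCr1 : (1 : ℝ) ≤ Cr := by
    have h1 : 1 ≤ Cr := by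
      rw [hCr]
      exact Nat.le_add_left _ _
    exact_mod_cast h1
  have hHY : ∀ d, (H : ℝ) ≤ Real.exp ((Y : ℝ) ^ δ1 d) := fun d =>
    hHexp.trans (Real.exp_le_exp.2 (le_trans (by
      calc X ^ δ = 1 * X ^ δ := (one_mul _).symm
        _ ≤ Cr * X ^ δ := mul_le_mul_of_nonneg_right hCr1 (by linarith)) (hYδd d)))
  have hval : ∀ (f : ℤ[X]) (p : ℤ × ℤ), value f p = hv (f.natDegree + 1) f p := by
    intro f p
    rw [hv_range]
    rfl
  -- the candidates
  have hcand : ∀ α ∈ Exceptional r m κ δ X P, ∃ f : ℤ[X], ∃ hfr : f.natDegree < r + 1,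
      Cand f.natDegree q N 0 (δ1 ⟨f.natDegree, hfr⟩) (κ1 ⟨f.natDegree, hfr⟩) Y H P f ∧
      aeval α f = 0 ∧ 0 < f.leadingCoeff := by
    rintro α ⟨⟨f, hf, hα, hfr, hnz, S, hS1, hS2, hS3, hS4⟩, hh1, hh2⟩
    have hfr' : f.natDegree < r + 1 := by omega
    have hdeg1 := natDegree_pos_of_root hf hα
    obtain ⟨d, hd⟩ : ∃ d, d = f.natDegree := ⟨_, rfl⟩
    obtain ⟨dδ, hdδ, hYd⟩ : ∃ dδ, dδ = δ1 ⟨f.natDegree, hfr'⟩ ∧
      (Cr : ℝ) * X ^ δ ≤ (Y : ℝ) ^ dδ := ⟨_, rfl, hYδd _⟩
    obtain ⟨κd, hκd, hκd2⟩ : ∃ κd, κd = κ1 ⟨f.natDegree, hfr'⟩ ∧ κd ≤ κ2 := ⟨_, rfl, hκ2 _⟩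
    have hdr : (d : ℝ) ≤ r := by
      rw [hd]
      exact_mod_cast hfr
    have hd0 : (0 : ℝ) ≤ d := Nat.cast_nonneg d
    have hh0 : 0 ≤ absLogHeight₁ α := by
      have h1 : 0 ≤ (κ : ℝ) * (Real.log X + divisorHeight P) := by
        rw [hdiv]
        positivity
      linarith
    have hC : Cand f.natDegree q N 0 dδ κd Y H P f := by
      refine ⟨hf, rfl, fun i => ?_, fun i => ?_, ?_, ?_⟩
      · rw [← hval]
        exact hnz i
      · refine (value_le (fun j => coeff_le hf hα j) (hPd i)).trans ?_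
        rw [← hd]
        have h1 : ((d : ℝ) + 1) ≤ Real.exp ((d : ℝ) + 1) := by
          have := Real.add_one_le_exp ((d : ℝ) + 1)
          linarith
        have h2 : (H : ℝ) ^ d ≤ Real.exp (d * X ^ δ) := by
          rw [Real.exp_nat_mul]
          exact pow_le_pow_left₀ (Nat.cast_nonneg _) hHexp _
        refine (mul_le_mul h1 (mul_le_mul_of_nonneg_left h2 (Real.exp_pos _).le)
          (by positivity) (Real.exp_pos _).le).trans ?_
        rw [← Real.exp_add, ← Real.exp_add]
        apply Real.exp_le_exp.2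
        refine le_trans ?_ hYd
        have h3 : 2 * (d : ℝ) ^ 2 * absLogHeight₁ α ≤ 2 * (d : ℝ) ^ 2 * X ^ δ :=
          mul_le_mul_of_nonneg_left hh2 (by positivity)
        have h4 : 2 * (d : ℝ) ^ 2 + 3 * d + 1 ≤ Cr := by
          rw [hCr]
          push_cast
          have h41 : (d : ℝ) ^ 2 ≤ (r : ℝ) ^ 2 := pow_le_pow_left₀ hd0 hdr _
          linarith
        have h5 : (2 * (d : ℝ) ^ 2 + 3 * d + 1) * X ^ δ ≤ Cr * X ^ δ :=
          mul_le_mul_of_nonneg_right h4 (by linarith)
        have h6 : (2 * (d : ℝ) + 1) * 1 ≤ (2 * (d : ℝ) + 1) * X ^ δ :=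
          mul_le_mul_of_nonneg_left hXδ (by positivity)
        linarith
      · rw [hN]
        apply exists_rep
        intro i
        rw [← hval]
        apply pp_of' (Int.natAbs_ne_zero.2 (hnz i)) hS2 (fun p hp => ?_) hY1
        · refine (card_le_card ?_).trans hS4
          exact Finset.subset_biUnion_of_mem (fun i : Fin q =>
            ((value f (P i)).natAbs.primeFactors.filter (fun l => l ∉ S)).image
              (value f (P i)).natAbs.factorization) (mem_univ i)
        · -- the radical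
          obtain ⟨hK2, g1, g2, g3⟩ := exists_field hf hα
          have hcount : counting S P α = truncCount ℚ⟮α⟯ S P (AdjoinSimple.gen ℚ α) := by
            unfold counting
            rw [dif_pos (isIntegral_of_root hf hα)]
          have hnd : ∀ i, ((P i).2 : ℚ⟮α⟯) * AdjoinSimple.gen ℚ α - (P i).1 ≠ 0 := by
            intro i h0
            exact hnz i ((hval f (P i)).trans (hv_eq_zero g2 h0))
          have h1 := sum_log_le hf g2 hP.1 hnd (fun l hl => (hS1 l hl).1)
            ((value f (P i)).natAbs.primeFactors.filter (fun l => l ∉ S)) (fun l hl => by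
              rw [mem_filter, Nat.mem_primeFactors] at hl
              refine ⟨hl.1.1, hl.2, i, ?_⟩
              rw [← hval]
              exact Int.natCast_dvd.2 hl.1.2.1)
          have h2 : Pool.Agent.H99.Bd.truncCount ℚ⟮α⟯ S P (AdjoinSimple.gen ℚ α) =
              counting S P α := by
            rw [hcount]
            rfl
          rw [h2, g1, ← hd] at h1
          have h3 : (d : ℝ) * counting S P α ≤ r * Real.log X :=
            (mul_le_mul_of_nonneg_left hS3 hd0).trans (mul_le_mul_of_nonneg_right hdr hlogX.le)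
          have h4 : Real.log ((∏ p ∈ (value f (P i)).natAbs.primeFactors.filter
              (fun l => l ∉ S), p : ℕ) : ℝ) ≤ Real.log (X ^ r) := by
            push_cast
            rw [Real.log_prod (fun p hp => by
              have := (Nat.prime_of_mem_primeFactors (mem_filter.1 hp).1).pos
              exact_mod_cast this.ne'), Real.log_pow]
            exact h1.trans h3
          have h5 : (0 : ℝ) < ((∏ p ∈ (value f (P i)).natAbs.primeFactors.filter
              (fun l => l ∉ S), p : ℕ) : ℝ) := by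
            have : 0 < ∏ p ∈ (value f (P i)).natAbs.primeFactors.filter (fun l => l ∉ S), p :=
              prod_pos fun p hp => (Nat.prime_of_mem_primeFactors (mem_filter.1 hp).1).pos
            exact_mod_cast this
          have h6 := ((Real.log_le_log_iff h5 (by positivity)).1 h4).trans hYXr
          exact_mod_cast h6
        · have := (hS1 p hp).2.trans hYX
          exact_mod_cast this
      · by_contra hcon
        push Not at hcon
        have h1 := height_le hf hα (B := ((((Y + 2) * H) ^ κd : ℕ) : ℝ)) (fun j => by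
          have := hcon j
          exact_mod_cast this)
        have h2 : (((Y : ℝ) + 2) * H) ^ κd ≤ (X ^ w * H) ^ κ2 := by
          have h3 : ((Y : ℝ) + 2) * H ≤ X ^ w * H :=
            mul_le_mul_of_nonneg_right hY2X (by linarith)
          have h4 : (1 : ℝ) ≤ X ^ w * H := by
            have : (1 : ℝ) ≤ X ^ w := one_le_pow₀ hX1
            calc (1 : ℝ) = 1 * 1 := (one_mul 1).symm
              _ ≤ X ^ w * H := mul_le_mul this hH1r zero_le_one (by positivity)
          exact (pow_le_pow_left₀ (by positivity) h3 _).trans (pow_le_pow_right₀ h4 hκd2)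
        have h5 : (X * H) ^ κ < Real.exp (absLogHeight₁ α) := by
          have h6 : (X * H) ^ κ = Real.exp (κ * (Real.log X + divisorHeight P)) := by
            rw [hdiv, ← Real.log_mul hX0.ne' (by linarith), Real.exp_nat_mul, Real.exp_log
              (by positivity)]
          rw [h6]
          exact Real.exp_lt_exp.2 hh1
        have h7 : ((f.natDegree : ℝ) + 1) ≤ X ^ (r + 1) := by
          have h8 : r + 1 ≤ 2 ^ (r + 1) := (Nat.lt_two_pow_self).le
          have h9 : ((r : ℝ) + 1) ≤ 2 ^ (r + 1) := by exact_mod_cast h8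
          rw [← hd]
          exact (by linarith : (d : ℝ) + 1 ≤ r + 1).trans
            (h9.trans (pow_le_pow_left₀ (by norm_num) hX _))
        have h10 : ((f.natDegree : ℝ) + 1) * ((((Y + 2) * H) ^ κd : ℕ) : ℝ) ≤ (X * H) ^ κ := by
          push_cast
          refine (mul_le_mul h7 h2 (by positivity) (by positivity)).trans ?_
          rw [hκ, mul_pow, mul_pow, ← pow_mul, ← mul_assoc, ← pow_add]
          refine mul_le_mul_of_nonneg_left (pow_le_pow_right₀ hH1r ?_) (by positivity)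
          have : 1 ≤ w := by rw [hw]; exact (by omega : 1 ≤ (2 * c + 1) * (r + 1) + 2)
          calc κ2 = 1 * κ2 := (one_mul _).symm
            _ ≤ w * κ2 := Nat.mul_le_mul_right _ this
            _ ≤ r + 1 + w * κ2 := Nat.le_add_left _ _
        linarith
    rw [hdδ, hκd] at hC
    rcases lt_or_gt_of_ne (leadingCoeff_ne_zero.2 hf.ne_zero) with hneg | hpos
    · refine ⟨-f, by rw [natDegree_neg]; exact hfr', ?_, ?_, ?_⟩
      · have := hC.neg
        simp only [natDegree_neg]
        exact this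
      · rw [map_neg, hα, neg_zero]
      · rw [leadingCoeff_neg]
        linarith
    · exact ⟨f, hfr', hC, hα, hpos⟩
  -- the count
  have hcand2 : ∀ α ∈ Exceptional r m κ δ X P, ∃ (f : ℤ[X]) (d : Fin (r + 1)),
      Cand d.1 q N 0 (δ1 d) (κ1 d) Y H P f ∧ 1 ≤ d.1 ∧ aeval α f = 0 ∧ 0 < f.leadingCoeff := by
    intro α hα
    obtain ⟨f, hfr, h1, h2, h3⟩ := hcand α hα
    exact ⟨f, ⟨f.natDegree, hfr⟩, h1, natDegree_pos_of_root h1.irr h2, h2, h3⟩
  clear hcand
  choose! F D hF1 hF2 hF3 hF4 using hcand2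
  apply finite_of_le
  intro A hA
  have hcard1 : A.card ≤ r * (A.image F).card := by
    apply Finset.card_le_mul_card_image
    intro g hg
    obtain ⟨α, hα, rfl⟩ := mem_image.1 hg
    have hFne : (F α).map (Int.castRingHom ℂ) ≠ 0 := by
      rw [Ne, Polynomial.map_eq_zero_iff (RingHom.injective_int _)]
      exact (hF1 α (hA hα)).irr.ne_zero
    have h1 : A.filter (fun x => F x = F α) ⊆ ((F α).map (Int.castRingHom ℂ)).roots.toFinset := by
      intro β hβ
      rw [mem_filter] at hβ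
      rw [Multiset.mem_toFinset, mem_roots hFne, IsRoot, eval_map, ← hβ.2]
      exact hF3 β (hA hβ.1)
    refine (card_le_card h1).trans ((Multiset.toFinset_card_le _).trans ((card_roots' _).trans ?_))
    rw [natDegree_map_eq_of_injective (RingHom.injective_int _), (hF1 α (hA hα)).deg]
    have := (D α).2
    omega
  have hcard2 : ((A.image F).card : ℝ) ≤ (∑ d, K1 d) * (Y : ℝ) ^ ε1 := by
    have h1 : (A.image F).card = ∑ b ∈ range (r + 1),
        ((A.image F).filter fun g => g.natDegree = b).card := by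
      apply Finset.card_eq_sum_card_fiberwise
      intro g hg
      obtain ⟨α, hα, rfl⟩ := mem_image.1 hg
      rw [coe_range, Set.mem_Iio, (hF1 α (hA hα)).deg]
      exact (D α).2
    rw [h1, Finset.sum_range, Nat.cast_sum, Finset.sum_mul]
    refine sum_le_sum fun d _ => ?_
    have hmem : ∀ g ∈ (A.image F).filter (fun g => g.natDegree = d.1),
        Cand d.1 q N 0 (δ1 d) (κ1 d) Y H P g ∧ 1 ≤ d.1 ∧ 0 < g.leadingCoeff := by
      intro g hg
      rw [mem_filter] at hg
      obtain ⟨hg1, hg2⟩ := hg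
      obtain ⟨α, hα, rfl⟩ := mem_image.1 hg1
      have h2 : D α = d := by
        apply Fin.ext
        rw [← hg2, (hF1 α (hA hα)).deg]
      rw [← h2]
      exact ⟨hF1 α (hA hα), hF2 α (hA hα), hF4 α (hA hα)⟩
    by_cases hd : 1 ≤ d.1
    · refine H1 d hd Y hY1 H hH1 (hHY d) P hP.2 hPd _ (fun g hg => (hmem g hg).1)
        (fun g hg g' hg' _ h => ?_)
      have h2 := (hmem g hg).2.2
      have h3 := (hmem g' hg').2.2
      rw [h, leadingCoeff_neg] at h2
      linarith
    · have h2 : (A.image F).filter (fun g => g.natDegree = d.1) = ∅ := by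
        rw [Finset.eq_empty_iff_forall_notMem]
        intro g hg
        exact hd (hmem g hg).2.1
      rw [h2, card_empty, Nat.cast_zero]
      have := hK1 d
      positivity
  have h1 : (A.card : ℝ) ≤ r * ((∑ d, K1 d) * (Y : ℝ) ^ ε1) := by
    have h2 : (A.card : ℝ) ≤ r * ((A.image F).card : ℝ) := by exact_mod_cast hcard1
    exact h2.trans (mul_le_mul_of_nonneg_left hcard2 (Nat.cast_nonneg r))
  have h2 : (r : ℝ) * ((∑ d, K1 d) * (Y : ℝ) ^ ε1) ≤ K * (Y : ℝ) ^ ε1 := by
    rw [hK]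
    have : (0 : ℝ) ≤ (Y : ℝ) ^ ε1 := by positivity
    have h3 : ((r : ℝ) * ∑ d, K1 d + 1) * (Y : ℝ) ^ ε1 =
        r * ((∑ d, K1 d) * (Y : ℝ) ^ ε1) + (Y : ℝ) ^ ε1 := by ring
    linarith
  calc (A.card : ℝ) ≤ K * (Y : ℝ) ^ ε1 := h1.trans h2
    _ ≤ K * ((2 * c : ℝ) ^ ε * X ^ ε) := mul_le_mul_of_nonneg_left hYε hK0.le
    _ = _ := by ring

end Pool.Agent.Results.MP_71c16a_nt.FewPointsOfBoundedDegree
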