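import Pool.Agent.H85.X.MainX
import Pool.Graph.R_pool_sql_team_seeded_3dad9d7b.NH28.FewD

set_option autoImplicit false

/-!
# An inequality of Vojta's type with the discriminant of the order, for points of any degree

`D = a_1 + ⋯ + a_q` is a sum of distinct points of `ℙ¹` over a number field `K` (the coordinate is
chosen so that `∞` is not one of them), `S` is a finite set of places of `K`, and `x` runs through the
points of `ℙ¹` of degree `r ≥ 2` over `K`. Let `f` be the minimal polynomial of `x`.

Vojta's conjecture is `m_S(D, x) ≤ (2 + ε) h(x) + d_K(x) + O(1)`. Write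

* `d_S(x) = (1 / r) ∑_{v ∉ S} ((2 r - 2) log max_j |f_j|_v - log |disc f|_v)` for the discriminant
  outside `S` of the order of `x`, that is, of the functions on the closure of `x` in `ℙ¹` over the
  ring of integers of `K`. It is at least the part outside `S` of `d_K(x)`, and equal to it if the
  order is maximal outside `S`; and `0 ≤ d_S(x) ≤ (2 r - 2) h(x) + O(1)`;
* `T_S(D, x) = (1 / r) ∑_{v ∈ S} ∑_i ∑_{j ≠ k} min(λ_i(x_j), λ_i(x_k))`, where `x_1, …, x_r` are the
  conjugates of `x` in the algebraic closure of `K_v`; it measures the pairs of conjugates which are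
  near to the same point of `D`.

We prove: there is a proper closed subset `Z` of the space `ℙ^r` of the forms of degree `r`, which does
not depend on `S`, such that for all `x` of degree `r` with minimal polynomial outside `Z`

`m_S(D, x) + (r - 2) / (2 r - 2) T_S(D, x) ≤ (r + ε) h(x) + d_S(x) / (2 r - 2) + O(1)`,

or, written in the form of the conjecture,

`m_S(D, x) - 2 h(x) ≤ ε h(x) + d_S(x) / (2 r - 2) + (r - 2) (h(x) - T_S(D, x) / (2 r - 2)) + O(1)`.

For `r = 2` the last term is not there. For all `r` this gives the inequality of the conjecture with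
`d_S` in the place of `d_K` for the points with `d_S(x) ≥ (r - 2) (2 r - 2) / (2 r - 3) h(x)`, about one
half of the largest possible value. The exceptional set is necessary: the coefficient of `d_S` would
have to be `1` for the quadratic points with a given pencil of minimal polynomials.

Method: the coefficient vector `c` of `f` is a `K`-rational point of `ℙ^r`. Apply the subspace theorem
to all the forms of degree `N` in `c`. At `v ∈ S` take the osculating flags at the `a_i` of the rational
normal curve, that is, the linear forms `f^(l)(a_i)`, `l < m_i`, with `∑ m_i = r + 1` (they are a basis,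
by Hermite interpolation, and the `m_i` depend on `x` and `v`); the value of `f^(l)(a_i)` is small if
more than `l` conjugates are near to `a_i`. As a basis for the forms of degree `N` take the products
of a monomial in these linear forms with a power of the discriminant. They are chosen by the leading
monomial `μ` of the discriminant for the weights given by the distances: a monomial `α` is replaced by
`disc^k` times the monomial `α - k μ`, `k` maximal. The weight of `μ` is the size which the
discriminant is forced to have by the closeness of the conjugates to the `a_i`, and the gain is the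
remaining part of the `v`-adic size of the discriminant, times the mean of `k`. The product formula
for the discriminant turns the sum over `v ∈ S` of the gain into `h - d_S / (2 r - 2)`.
-/

namespace Pool.Agent.Results.MP_71c16a_nt.OrderDiscriminantAllDegrees

open NumberField IsDedekindDomain

/-- The places of a number field: the archimedean places and the primes. -/
abbrev Place (L : Type) [Field L] [NumberField L] : Type :=
  InfinitePlace L ⊕ HeightOneSpectrum (𝓞 L)

/-- The place `w` of `L` lies above the place `v` of `K`. -/
def LiesAbove {K L : Type} [Field K] [NumberField K] [Field L] [NumberField L] [Algebra K L] :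
    Place K → Place L → Prop
  | Sum.inl v, Sum.inl w => w.comap (algebraMap K L) = v
  | Sum.inr v, Sum.inr w => w.asIdeal.LiesOver v.asIdeal
  | _, _ => False

/-- There are finitely many places above a place. -/
theorem finite_above {K : Type} (L : Type) [Field K] [NumberField K] [Field L] [NumberField L]
    [Algebra K L] (v : Place K) : {w : Place L | LiesAbove v w}.Finite := by
  refine (Pool.Agent.NH28.ab L v).finite_toSet.subset fun w hw => ?_
  rw [Finset.mem_coe, Pool.Agent.NH28.mem_ab]
  rcases v with v | v <;> rcases w with w | w <;> exact hw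

/-- The finite set of the places of `L` above the place `v` of `K`. -/
noncomputable def above {K : Type} (L : Type) [Field K] [NumberField K] [Field L] [NumberField L]
    [Algebra K L] (v : Place K) : Finset (Place L) := (finite_above L v).toFinset

/-- The absolute value of a place. At a prime it is the normalised one, with the value
`(N v) ^ (-ord_v x)` at `x ≠ 0`. -/
noncomputable def absv {L : Type} [Field L] [NumberField L] : Place L → L → ℝ
  | Sum.inl w => fun x => w x
  | Sum.inr v => fun x => FinitePlace.mk v x

/-- The exponent of the absolute value of a place in the product formula: `1` at real places and at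
primes, `2` at complex places. -/
noncomputable def weight {L : Type} [Field L] [NumberField L] : Place L → ℝ
  | Sum.inl w => w.mult
  | Sum.inr _ => 1

/-- The degree of the completion of `L` at a place over the completion of `K` at the place below:
the quotient of the degrees over `ℝ` at an archimedean place, `e f` at a prime. -/
noncomputable def localDegree (K : Type) {L : Type} [Field K] [NumberField K] [Field L]
    [NumberField L] [Algebra K L] : Place L → ℝ
  | Sum.inl w => w.mult / (w.comap (algebraMap K L)).mult
  | Sum.inr w => ((w.asIdeal.under (𝓞 K)).ramificationIdx' w.asIdeal *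
      (w.asIdeal.under (𝓞 K)).inertiaDeg' w.asIdeal : ℕ)

/-- The probability of the place `w` of `L`: `[L_w : K_v] / [L : K]`. -/
noncomputable def prob (K : Type) {L : Type} [Field K] [NumberField K] [Field L]
    [NumberField L] [Algebra K L] (w : Place L) : ℝ :=
  localDegree K w / Module.finrank K L

/-- The local height of the point `a` of the projective line at the point `x` and the place `w` of
`L`, for the absolute value on `L_w` which extends the normalised absolute value of `K` (so that
`∑_{w | v} [L_w : K_v] λ_w / [L : K]` is the local height at the place `v` of `K`). -/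
noncomputable def localHeight {K L : Type} [Field K] [NumberField K] [Field L] [NumberField L]
    [Algebra K L] (a : K) (x : L) (w : Place L) : ℝ :=
  weight w / localDegree K w * Real.log (max 1 (absv w x) / absv w (x - algebraMap K L a))

/-- The proximity function `m_S(D, x)` for the divisor `D = ∑_i a_i`. -/
noncomputable def proximity {K L : Type} [Field K] [NumberField K] [Field L] [NumberField L]
    [Algebra K L] {q : ℕ} (S : Finset (Place K)) (a : Fin q → K) (x : L) : ℝ :=
  ∑ v ∈ S, ∑ i, ∑ w ∈ above L v, prob K w * localHeight (a i) x w

/-- The closeness of the pairs of conjugates of `x` to the points `a_i`: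
`T_S(D, x) = (1 / r) ∑_{v ∈ S} ∑_i ∑_{j ≠ k} min(λ_i(x_j), λ_i(x_k))`, where `x_1, …, x_r` are the
conjugates of `x` in the algebraic closure of `K_v`. Each place `w` above `v` stands for
`[L_w : K_v]` of them, and so the sum over `j ≠ k` divided by `r` is
`r ∑_{w, w'} prob(w) prob(w') min(λ_w, λ_w') - ∑_w prob(w) λ_w`. -/
noncomputable def closeness {K L : Type} [Field K] [NumberField K] [Field L] [NumberField L]
    [Algebra K L] {q : ℕ} (S : Finset (Place K)) (a : Fin q → K) (x : L) : ℝ :=
  ∑ v ∈ S, ∑ i, (Module.finrank K L * ∑ w ∈ above L v, ∑ w' ∈ above L v,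
    prob K w * prob K w' * min (localHeight (a i) x w) (localHeight (a i) x w') -
      ∑ w ∈ above L v, prob K w * localHeight (a i) x w)

/-- The logarithmic height, normalised relative to `K`. -/
noncomputable def height (K : Type) {L : Type} [Field K] [Field L] [NumberField L] [Algebra K L]
    (x : L) : ℝ :=
  Height.logHeight₁ x / Module.finrank K L

/-- The logarithmic discriminant outside `S` of the order attached to the point `x` of degree
`r = [L : K]`, normalised as in Vojta's conjecture:
`(1 / r) ∑_{v ∉ S} ((2 r - 2) log max_j |f_j|_v - log |disc f|_v)`, where `f` is the minimal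
polynomial of `x`. -/
noncomputable def orderDiscriminant {K L : Type} [Field K] [NumberField K] [Field L]
    [NumberField L] [Algebra K L] (S : Finset (Place K)) (x : L) : ℝ :=
  (∑ᶠ v ∈ {v : HeightOneSpectrum (𝓞 K) | (Sum.inr v : Place K) ∉ S},
    ((2 * Module.finrank K L - 2) * Real.log (⨆ j : Fin (Module.finrank K L + 1),
      absv (Sum.inr v : Place K) ((minpoly K x).coeff j)) -
        Real.log (absv (Sum.inr v : Place K) (minpoly K x).discr))) / Module.finrank K L

theorem above_eq {K L : Type} [Field K] [NumberField K] [Field L] [NumberField L] [Algebra K L]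
    (v : Place K) : above L v = Pool.Agent.NH28.ab L v := by
  ext w
  rw [Pool.Agent.NH28.mem_ab]
  unfold above
  rw [Set.Finite.mem_toFinset, Set.mem_ofPred_eq]
  rcases v with v | v <;> rcases w with w | w <;> exact Iff.rfl

theorem localDegree_eq {K L : Type} [Field K] [NumberField K] [Field L] [NumberField L]
    [Algebra K L] (v : Place K) (w : Place L) (hw : w ∈ Pool.Agent.NH28.ab L v) :
    localDegree K w = Pool.Agent.NH28.nn v w := by
  rw [Pool.Agent.NH28.nn_eq_lo (Pool.Agent.NH28.mem_ab.1 hw)]
  cases w <;> rfl

theorem localHeight_eq {K L : Type} [Field K] [NumberField K] [Field L] [NumberField L]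
    [Algebra K L] (v : Place K) (w : Place L) (hw : w ∈ Pool.Agent.NH28.ab L v) (a : K) (x : L) :
    localHeight a x w = Pool.Agent.H85.X.la v a x w := by
  have h1 : ∀ y : L, absv w y = Pool.Agent.W180.OP.av w y := by
    intro y
    cases w <;> rfl
  have h2 : weight w = Pool.Agent.W180.OP.wt w := by cases w <;> rfl
  unfold localHeight Pool.Agent.H85.X.la
  rw [h1, h1, h2, localDegree_eq v w hw]

theorem orderDiscriminant_eq {K L : Type} [Field K] [NumberField K] [Field L] [NumberField L]
    [Algebra K L] (S : Finset (Place K)) {r : ℕ} (hr : 2 ≤ r) (hrL : Module.finrank K L = r)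
    (x : L) (hx : IntermediateField.adjoin K {x} = ⊤) : orderDiscriminant S x =
      (∑ᶠ v ∈ {v : HeightOneSpectrum (𝓞 K) | (Sum.inr v : Place K) ∉ S},
        Pool.Agent.H85.X.od (Pool.Agent.H85.X.cf (K := K) r x) v) / r := by
  unfold orderDiscriminant
  subst hrL
  congr 1
  refine finsum_mem_congr rfl fun v _ => ?_
  unfold Pool.Agent.H85.X.od
  have h1 : ((2 * Module.finrank K L - 2 : ℕ) : ℝ) = 2 * Module.finrank K L - 2 := by
    rw [Nat.cast_sub (by omega)]
    push_cast
    ring
  rw [h1]
  have h2 : MvPolynomial.eval (Pool.Agent.H85.X.cf (K := K) (Module.finrank K L) x)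
      (Pool.Agent.H85.X.DK K (Module.finrank K L)) = (minpoly K x).discr := by
    rw [Pool.Agent.H85.X.DK_eval (by omega) _ (by
      rw [Pool.Agent.H85.X.cf_last rfl hx]
      exact one_ne_zero), Pool.Agent.H85.X.PF_cf x (Pool.Agent.H85.X.deg_min hx).le]
  rw [h2]
  rfl

/-- **An inequality of Vojta's type with the discriminant of the order.** Let `K` be a number field,
`D = ∑_i a_i` a sum of `q ≥ 1` distinct points of `K` in `ℙ¹`, `r ≥ 2` and `ε > 0`. There is a nonzero
form `Z` in `r + 1` variables over `K` such that for every finite set `S` of places of `K` which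
contains the archimedean places there is `C` with the following property: all points `x` of degree
`r` over `K` (generating the field `L`) with minimal polynomial `f` such that `Z(f) ≠ 0` satisfy
`m_S(D, x) + (r - 2) / (2 r - 2) T_S(D, x) ≤ (r + ε) h(x) + d_S(x) / (2 r - 2) + C`. -/
theorem result (K : Type) [Field K] [NumberField K] (q r : ℕ) (hq : 1 ≤ q) (hr : 2 ≤ r)
    (a : Fin q → K) (ha : Function.Injective a) (ε : ℝ) (hε : 0 < ε) :
    ∃ Z : MvPolynomial (Fin (r + 1)) K, Z ≠ 0 ∧ (∃ t, Z.IsHomogeneous t) ∧
      ∀ S : Finset (Place K), (∀ v : InfinitePlace K, Sum.inl v ∈ S) → ∃ C : ℝ,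
        ∀ (L : Type) [Field L] [NumberField L] [Algebra K L], Module.finrank K L = r →
          ∀ x : L, IntermediateField.adjoin K {x} = ⊤ →
            MvPolynomial.eval (fun j : Fin (r + 1) => (minpoly K x).coeff j) Z ≠ 0 →
            proximity S a x + (r - 2) / (2 * r - 2) * closeness S a x ≤
              (r + ε) * height K x + orderDiscriminant S x / (2 * r - 2) + C := by
  obtain ⟨Z, hZ0, hZh, hZ⟩ := Pool.Agent.H85.X.main_x hr hq a ha ε hε
  refine ⟨Z, hZ0, hZh, fun S hS => ?_⟩
  obtain ⟨C, hC0, hC⟩ := hZ S hS
  refine ⟨C, ?_⟩
  intro L _ _ _ hrL x hx hZx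
  obtain ⟨_, h1⟩ := hC L hrL x hx hZx
  have hr2 : (2 : ℝ) ≤ r := by exact_mod_cast hr
  have hr0 : (0 : ℝ) < r := by linarith
  have e1 : proximity S a x = (∑ v ∈ S, ∑ i, (∑ w ∈ Pool.Agent.NH28.ab L v,
      Pool.Agent.NH28.nn v w * Pool.Agent.H85.X.la v (a i) x w)) / r := by
    unfold proximity prob
    rw [Finset.sum_div]
    refine Finset.sum_congr rfl fun v _ => ?_
    rw [Finset.sum_div]
    refine Finset.sum_congr rfl fun i _ => ?_
    rw [Finset.sum_div, above_eq]
    refine Finset.sum_congr rfl fun w hw => ?_
    rw [localHeight_eq v w hw, localDegree_eq v w hw, hrL, div_mul_eq_mul_div]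
  have e2 : closeness S a x = (∑ v ∈ S, ∑ i, (∑ w ∈ Pool.Agent.NH28.ab L v,
      ∑ w' ∈ Pool.Agent.NH28.ab L v, Pool.Agent.NH28.nn v w * Pool.Agent.NH28.nn v w' *
        min (Pool.Agent.H85.X.la v (a i) x w) (Pool.Agent.H85.X.la v (a i) x w') -
      ∑ w ∈ Pool.Agent.NH28.ab L v,
        Pool.Agent.NH28.nn v w * Pool.Agent.H85.X.la v (a i) x w)) / r := by
    unfold closeness prob
    rw [Finset.sum_div]
    refine Finset.sum_congr rfl fun v _ => ?_
    rw [Finset.sum_div]
    refine Finset.sum_congr rfl fun i _ => ?_
    rw [sub_div, above_eq]
    congr 1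
    · rw [hrL, Finset.mul_sum, Finset.sum_div]
      refine Finset.sum_congr rfl fun w hw => ?_
      rw [Finset.mul_sum, Finset.sum_div]
      refine Finset.sum_congr rfl fun w' hw' => ?_
      rw [localHeight_eq v w hw, localDegree_eq v w hw, localHeight_eq v w' hw',
        localDegree_eq v w' hw']
      field_simp
    · rw [Finset.sum_div]
      refine Finset.sum_congr rfl fun w hw => ?_
      rw [localHeight_eq v w hw, localDegree_eq v w hw, hrL, div_mul_eq_mul_div]
  have e3 : height K x = Height.logHeight₁ x / r := by
    unfold height
    rw [hrL]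
  rw [e1, e2, e3, orderDiscriminant_eq S hr hrL x hx]
  have h2 := div_le_div_of_nonneg_right h1 hr0.le
  have h3 : C / r ≤ C := div_le_self hC0 (by linarith)
  have h4 : ∀ A B c : ℝ, (A + c * B) / r = A / r + c * (B / r) := by
    intro A B c
    ring
  have h5 : ∀ A B c c' : ℝ, (c * A + B / c' + C) / r = c * (A / r) + B / r / c' + C / r := by
    intro A B c c'
    ring
  rw [h4, h5] at h2
  linarith

end Pool.Agent.Results.MP_71c16a_nt.OrderDiscriminantAllDegrees
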