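import Pool.Agent.H85.W.TwoCh
import Pool.Graph.R_pool_sql_team_seeded_3dad9d7b.NH28.FewD

set_option autoImplicit false

/-!
# Vojta's inequality for the points of bounded degree, with the spread of the conjugates

`X = {G = 0}` is an integral closed subscheme of dimension `ν ≥ 1` of `ℙ^(n-1)` over a number field
`K`, and `D i = X ∩ {F i = 0}`, `i < q`, are hypersurface sections of degrees `d i`, no `ν + 1` of
which have a common point. Let `S` be a finite set of places of `K` and let `x` run through the points
of `X` of degree at most `r` over `K`.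

For a place `v` of `K` regard the local height `λ_i = λ_{D i} / d i` as a random variable on the
places `w` above `v` of the residue field `L` of `x`, the place `w` having the probability
`[L_w : K_v] / [L : K]`. So the local height of `D i` at `x` and `v` is the mean of this random
variable, and the proximity function is `m_S(D, x) = ∑_{v ∈ S} ∑_i E λ_i`. The *spread* of the
conjugates of `x` is

`G_S(D, x) = ∑_{v ∈ S} ∑_i ∫_0^∞ γ(P(λ_i ≥ t)) dt`, `γ(s) = ν (1 - s) (1 - (1 - s) ^ (1 / ν))`.

Here `0 ≤ γ(s) ≤ s`, `γ(0) = γ(1) = 0`, and so `0 ≤ G_S ≤ m_S` up to a bounded term; the spread is `0`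
if at each `v ∈ S` the conjugates of `x` are equally near to each `D i`. We prove: outside a proper
closed subset of `X`, which does not depend on `S`,

`m_S(D, x) - (ν + 1) h(x) ≤ ε h(x) + G_S(D, x) + O(1)`.

For `X = ℙ^ν` and hyperplanes in general position `-(ν + 1) h` is the height for the canonical
divisor, and this is Vojta's inequality with the spread in place of the logarithmic discriminant. For
`r = 1` it is the subspace theorem of Schmidt, and the theorem of Evertse and Ferretti in general. For
`ν = 1` the spread is half of the mean difference, `(1 / 2) ∑_v ∑_i E |λ_i - λ_i'|`.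

Method: the subspace theorem (with exceptional hyperplanes independent of `S`) for the `K`-rational
points `(Tr (θ s_j(x)))_j`, where the `s_j` are a basis of the forms of large degree `M` on `X` and
`θ` is an element of the residue field with prescribed sizes at all the places above `S`, depending on
`x`. At `v` one uses a basis of the forms of degree `M` which is adapted to an iterated filtration:
a step for each divisor and each `m ≤ M`, by the multiples of the `m`-th power of the equation, with a
weight which is a quantile of the distribution of the local heights above `v`. The subspaces of the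
multiples of different equations are not in general position in any common basis, but iterating one
gets a filtration with the expected dimensions whose members have the expected sizes at all the places
above `v`.
-/

namespace Pool.Agent.Results.MP_71c16a_nt.SubspaceSpread

open NumberField IsDedekindDomain MeasureTheory

/-- The point with homogeneous coordinates `x` lies on the projective scheme `{G = 0}`. -/
def On {K L : Type} [Field K] [Field L] [Algebra K L] {m n : ℕ}
    (G : Fin m → MvPolynomial (Fin n) K) (x : Fin n → L) : Prop :=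
  ∀ k, MvPolynomial.aeval x (G k) = 0

/-- The places of a number field: the archimedean places and the primes. -/
abbrev Place (L : Type) [Field L] [NumberField L] : Type :=
  InfinitePlace L ⊕ HeightOneSpectrum (𝓞 L)

/-- The place `w` of `L` lies above the place `v` of `K`. -/
def LiesAbove {K L : Type} [Field K] [NumberField K] [Field L] [NumberField L] [Algebra K L] :
    Place K → Place L → Prop
  | Sum.inl v, Sum.inl w => w.comap (algebraMap K L) = v
  | Sum.inr v, Sum.inr w => w.asIdeal.LiesOver v.asIdeal
  | _, _ => False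

/-- There are finitely many places above a place. -/
theorem finite_above {K : Type} (L : Type) [Field K] [NumberField K] [Field L] [NumberField L]
    [Algebra K L] (v : Place K) : {w : Place L | LiesAbove v w}.Finite := by
  refine (Pool.Agent.NH28.ab L v).finite_toSet.subset fun w hw => ?_
  rw [Finset.mem_coe, Pool.Agent.NH28.mem_ab]
  rcases v with v | v <;> rcases w with w | w <;> exact hw

/-- The finite set of the places of `L` above the place `v` of `K`. -/
noncomputable def above {K : Type} (L : Type) [Field K] [NumberField K] [Field L] [NumberField L]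
    [Algebra K L] (v : Place K) : Finset (Place L) := (finite_above L v).toFinset

/-- The absolute value of a place. At a prime it is the normalised one, with the value
`(N v) ^ (-ord_v x)` at `x ≠ 0`. -/
noncomputable def absv {L : Type} [Field L] [NumberField L] : Place L → L → ℝ
  | Sum.inl w => fun x => w x
  | Sum.inr v => fun x => FinitePlace.mk v x

/-- The exponent of the absolute value of a place in the product formula: `1` at real places and at
primes, `2` at complex places. -/
noncomputable def weight {L : Type} [Field L] [NumberField L] : Place L → ℝ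
  | Sum.inl w => w.mult
  | Sum.inr _ => 1

/-- The degree of the completion of `L` at a place over the completion of `K` at the place below:
the quotient of the degrees over `ℝ` at an archimedean place, `e f` at a prime. -/
noncomputable def localDegree (K : Type) {L : Type} [Field K] [NumberField K] [Field L]
    [NumberField L] [Algebra K L] : Place L → ℝ
  | Sum.inl w => w.mult / (w.comap (algebraMap K L)).mult
  | Sum.inr w => ((w.asIdeal.under (𝓞 K)).ramificationIdx' w.asIdeal *
      (w.asIdeal.under (𝓞 K)).inertiaDeg' w.asIdeal : ℕ)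

/-- The local height (Weil function) of the hypersurface `F = 0` of degree `d` at the place `w` of
`L`, for the absolute value on `L_w` which extends the normalised absolute value of `K` (so that
`∑_{w | v} [L_w : K_v] λ_w / [L : K]` is the local height at the place `v` of `K`). -/
noncomputable def localHeight {K L : Type} [Field K] [NumberField K] [Field L] [NumberField L]
    [Algebra K L] {n : ℕ} (F : MvPolynomial (Fin n) K) (d : ℕ) (x : Fin n → L) (w : Place L) : ℝ :=
  weight w / localDegree K w *
    Real.log ((⨆ j, absv w (x j)) ^ d / absv w (MvPolynomial.aeval x F))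

/-- The probability of the place `w` of `L`: `[L_w : K_v] / [L : K]`. -/
noncomputable def prob (K : Type) {L : Type} [Field K] [NumberField K] [Field L]
    [NumberField L] [Algebra K L] (w : Place L) : ℝ :=
  localDegree K w / Module.finrank K L

/-- The sum over `i` of `1 / d i` times the proximity function
`m_S(D i, x) = ∑_{v ∈ S} λ_{D i}(x, v)` of `D i = {F i = 0}`, where
`λ_{D i}(x, v) = (1 / [L : K]) ∑_{w | v} [L_w : K_v] λ_{D i, w}(x)`. -/
noncomputable def proximity {K L : Type} [Field K] [NumberField K] [Field L] [NumberField L]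
    [Algebra K L] {n q : ℕ} (S : Finset (Place K)) (F : Fin q → MvPolynomial (Fin n) K)
    (d : Fin q → ℕ) (x : Fin n → L) : ℝ :=
  ∑ v ∈ S, ∑ i, ∑ w ∈ above L v, prob K w * (localHeight (F i) (d i) x w / d i)

/-- The proportion of the places `w` above `v`, counted with their probabilities, at which the
function `a` is at least `t`. -/
noncomputable def proportion {K L : Type} [Field K] [NumberField K] [Field L] [NumberField L]
    [Algebra K L] (v : Place K) (a : Place L → ℝ) (t : ℝ) : ℝ :=
  ∑ w ∈ above L v, if t ≤ a w then prob K w else 0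

/-- The function `γ(s) = ν (1 - s) (1 - (1 - s) ^ (1 / ν))`, which vanishes for `s = 0` and `s = 1`
and lies between `0` and `s` for `0 ≤ s ≤ 1`; for `ν = 1` it is `s (1 - s)`. -/
noncomputable def gam (ν : ℕ) (s : ℝ) : ℝ := ν * (1 - s) * (1 - (1 - s) ^ (1 / (ν : ℝ)))

/-- The spread of the conjugates of `x` with respect to the divisors `D i = {F i = 0}`:
`∑_{v ∈ S} ∑_i ∫_0^∞ γ(P(λ_{D i} / d i ≥ t)) dt`, where `P` is the proportion of the places above
`v`. -/
noncomputable def spread {K L : Type} [Field K] [NumberField K] [Field L] [NumberField L]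
    [Algebra K L] {n q : ℕ} (S : Finset (Place K)) (ν : ℕ) (F : Fin q → MvPolynomial (Fin n) K)
    (d : Fin q → ℕ) (x : Fin n → L) : ℝ :=
  ∑ v ∈ S, ∑ i, ∫ t in Set.Ioi (0 : ℝ),
    gam ν (proportion v (fun w => localHeight (F i) (d i) x w / d i) t)

/-- The logarithmic height, normalised relative to `K`. -/
noncomputable def height (K : Type) {L : Type} [Field K] [Field L] [NumberField L] [Algebra K L]
    {n : ℕ} (x : Fin n → L) : ℝ :=
  Height.logHeight x / Module.finrank K L

/-- The residue field over `K` of the point with homogeneous coordinates `x` in `L` is `L`. -/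
def ResidueField (K : Type) {L : Type} [Field K] [Field L] [Algebra K L] {n : ℕ}
    (x : Fin n → L) : Prop :=
  IntermediateField.adjoin K {z : L | ∃ i j, z = x i / x j} = ⊤

theorem above_eq {K L : Type} [Field K] [NumberField K] [Field L] [NumberField L] [Algebra K L]
    (v : Place K) : above L v = Pool.Agent.NH28.ab L v := by
  ext w
  rw [Pool.Agent.NH28.mem_ab]
  unfold above
  rw [Set.Finite.mem_toFinset, Set.mem_ofPred_eq]
  rcases v with v | v <;> rcases w with w | w <;> exact Iff.rfl

theorem localDegree_eq {K L : Type} [Field K] [NumberField K] [Field L] [NumberField L]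
    [Algebra K L] (v : Place K) (w : Place L) (hw : w ∈ Pool.Agent.NH28.ab L v) :
    localDegree K w = Pool.Agent.NH28.nn v w := by
  rw [Pool.Agent.NH28.nn_eq_lo (Pool.Agent.NH28.mem_ab.1 hw)]
  cases w <;> rfl

theorem localHeight_eq {K L : Type} [Field K] [NumberField K] [Field L] [NumberField L]
    [Algebra K L] {n : ℕ} (v : Place K) (w : Place L) (hw : w ∈ Pool.Agent.NH28.ab L v)
    (F : MvPolynomial (Fin n) K) (d : ℕ) (x : Fin n → L) :
    localHeight F d x w / d = Pool.Agent.H85.W.Lh v d F x w := by
  have h1 : Real.log ((⨆ j, absv w (x j)) ^ d / absv w (MvPolynomial.aeval x F)) =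
      Pool.Agent.W180.OP.lam (Pool.Agent.W180.OP.av w) d
        (Pool.Agent.W180.OP.bc L F) x := by
    unfold Pool.Agent.W180.OP.lam Pool.Agent.W180.OP.nrm
    rw [Pool.Agent.W180.OP.eval_bc]
    cases w <;> rfl
  have h2 : weight w = Pool.Agent.W180.OP.wt w := by cases w <;> rfl
  unfold localHeight Pool.Agent.H85.W.Lh
  rw [h1, h2, localDegree_eq v w hw]
  ring

theorem proportion_eq {K L : Type} [Field K] [NumberField K] [Field L] [NumberField L]
    [Algebra K L] {n : ℕ} (v : Place K) (F : MvPolynomial (Fin n) K) (d : ℕ) (x : Fin n → L)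
    (t : ℝ) : proportion v (fun w => localHeight F d x w / d) t =
      Pool.Agent.H85.W.PP (Pool.Agent.NH28.ab L v) (Pool.Agent.NH28.nn v) (Module.finrank K L)
        (Pool.Agent.H85.W.Lh v d F x) t := by
  classical
  unfold proportion Pool.Agent.H85.W.PP prob
  rw [above_eq, Finset.sum_filter, Finset.sum_div]
  refine Finset.sum_congr rfl fun w hw => ?_
  simp only [localHeight_eq v w hw, localDegree_eq v w hw]
  by_cases h : t ≤ Pool.Agent.H85.W.Lh v d F x w
  · rw [if_pos h, if_pos h]
  · rw [if_neg h, if_neg h, zero_div]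

/-- **Vojta's inequality for the points of bounded degree, with the spread in place of the
discriminant.** Let `X = {G = 0}` be an integral closed subscheme of dimension `ν ≥ 1` of the
projective space `ℙ^(n-1)` over a number field `K`, let `D i = X ∩ {F i = 0}`, `i < q`, be
hypersurface sections of degrees `d i ≥ 1`, no `ν + 1` of which have a common point, and let `r` be a
natural number. For every `ε > 0` there is a form `Z` over `K`, not vanishing identically on `X`, such
that for every finite set `S` of places of `K` which contains the archimedean places there is `C` with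
the following property: all points `x` of `X` of degree at most `r` over `K` (with residue field `L`)
with `Z(x) ≠ 0` which are not in any `D i` satisfy
`∑ i, m_S(D i, x) / d i - (ν + 1) h(x) ≤ ε h(x) + G_S(D, x) + C`. -/
theorem result (K : Type) [Field K] [NumberField K] (m n q ν r : ℕ) (hν : 1 ≤ ν)
    (G : Fin m → MvPolynomial (Fin n) K) (g : Fin m → ℕ) (hG : ∀ k, (G k).IsHomogeneous (g k))
    (hX : (Ideal.span (Set.range G)).IsPrime)
    (hdim : Algebra.trdeg K (MvPolynomial (Fin n) K ⧸ Ideal.span (Set.range G)) = ν + 1)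
    (F : Fin q → MvPolynomial (Fin n) K) (d : Fin q → ℕ) (hd : ∀ i, 1 ≤ d i)
    (hF : ∀ i, (F i).IsHomogeneous (d i))
    (hgp : ∀ (e : Fin (ν + 1) ↪ Fin q) (L : Type) [Field L] [Algebra K L] (x : Fin n → L),
      On G x → (∀ k, MvPolynomial.aeval x (F (e k)) = 0) → x = 0)
    (ε : ℝ) (hε : 0 < ε) :
    ∃ Z : MvPolynomial (Fin n) K, Z ∉ Ideal.span (Set.range G) ∧ (∃ t, Z.IsHomogeneous t) ∧
      ∀ S : Finset (Place K), (∀ v : InfinitePlace K, Sum.inl v ∈ S) → ∃ C : ℝ,
        ∀ (L : Type) [Field L] [NumberField L] [Algebra K L], Module.finrank K L ≤ r →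
          ∀ x : Fin n → L, x ≠ 0 → ResidueField K x → On G x →
            (∀ i, MvPolynomial.aeval x (F i) ≠ 0) → MvPolynomial.aeval x Z ≠ 0 →
            proximity S F d x + -(ν + 1) * height K x ≤
              ε * height K x + spread S ν F d x + C := by
  classical
  have hν1 : (0 : ℝ) < (ν : ℝ) + 1 := by positivity
  have hd0 : ∀ i, (1 : ℝ) ≤ d i := fun i => by exact_mod_cast hd i
  -- the dictionary
  have hprox : ∀ (L : Type) [Field L] [NumberField L] [Algebra K L] (S : Finset (Place K))
      (x : Fin n → L), proximity S F d x ≤ ∑ v ∈ S, ∑ i,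
        (∑ w ∈ Pool.Agent.NH28.ab L v, Pool.Agent.NH28.nn v w *
          max (Pool.Agent.H85.W.Lh v (d i) (F i) x w) 0) / Module.finrank K L := by
    intro L _ _ _ S x
    unfold proximity prob
    refine Finset.sum_le_sum fun v _ => Finset.sum_le_sum fun i _ => ?_
    rw [above_eq, Finset.sum_div]
    refine Finset.sum_le_sum fun w hw => ?_
    rw [localHeight_eq v w hw, localDegree_eq v w hw, div_mul_eq_mul_div]
    refine div_le_div_of_nonneg_right ?_ (Nat.cast_nonneg _)
    exact mul_le_mul_of_nonneg_left (le_max_left _ _) (Pool.Agent.NH28.nn_nonneg v w)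
  have hspread : ∀ (L : Type) [Field L] [NumberField L] [Algebra K L] (S : Finset (Place K))
      (x : Fin n → L), spread S ν F d x = ∑ v ∈ S, ∑ i, ∫ t in Set.Ioi (0 : ℝ),
        gam ν (Pool.Agent.H85.W.PP (Pool.Agent.NH28.ab L v) (Pool.Agent.NH28.nn v)
          (Module.finrank K L) (Pool.Agent.H85.W.Lh v (d i) (F i) x) t) := by
    intro L _ _ _ S x
    unfold spread
    simp only [proportion_eq]
  have hgam : ∀ s, gam ν s = s - (ν + 1) * Pool.Agent.H85.W.Vf ν s := by
    intro s
    unfold gam Pool.Agent.H85.W.Vf
    rw [mul_div_cancel₀ _ hν1.ne']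
    ring
  have hgam0 : ∀ s, 0 ≤ s → s ≤ 1 → 0 ≤ gam ν s := by
    intro s h0 h1
    unfold gam
    have h2 : (1 - s) ^ (1 / (ν : ℝ)) ≤ 1 := Real.rpow_le_one (by linarith) (by linarith)
      (by positivity)
    exact mul_nonneg (mul_nonneg (Nat.cast_nonneg _) (by linarith)) (by linarith)
  have hh0 : ∀ (L : Type) [Field L] [NumberField L] [Algebra K L] (x : Fin n → L),
      0 ≤ height K x := fun L _ _ _ x =>
    div_nonneg (Height.logHeight_nonneg x) (Nat.cast_nonneg _)
  rcases Nat.lt_or_ge q (ν + 1) with hq | hq
  · -- few divisors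
    choose Cb hCb0 hCb using fun i : Fin q => Pool.Agent.W180.TP.liou_u (F i) (d i) (hF i)
    refine ⟨1, fun h => hX.ne_top ((Ideal.eq_top_iff_one _).2 h), ⟨0,
        MvPolynomial.isHomogeneous_one _ _⟩, fun S _ => ⟨∑ i, Cb i * Module.finrank ℚ K, ?_⟩⟩
    intro L _ _ _ hrL x hx _ _ hFx _
    have hdL : 0 < Module.finrank K L := Module.finrank_pos
    set dL : ℝ := (Module.finrank K L : ℝ) with hdLd
    have hdR : 0 < dL := by rw [hdLd]; exact_mod_cast hdL
    have hfq : (Module.finrank ℚ L : ℝ) = Module.finrank ℚ K * dL := by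
      have h1 : Module.finrank ℚ K * Module.finrank K L = Module.finrank ℚ L :=
        Module.finrank_mul_finrank ℚ K L
      rw [hdLd, ← h1]
      push_cast
      ring
    have hsp0 : 0 ≤ spread S ν F d x := by
      rw [hspread]
      refine Finset.sum_nonneg fun v _ => Finset.sum_nonneg fun i _ =>
        setIntegral_nonneg measurableSet_Ioi fun t _ => ?_
      exact hgam0 _ (Pool.Agent.H85.W.PP_nonneg _ _ (fun w _ => Pool.Agent.NH28.nn_nonneg v w) _
        hdR _ t) (Pool.Agent.H85.W.PP_le_one _ _ (fun w _ => Pool.Agent.NH28.nn_nonneg v w) _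
        hdR _ (Pool.Agent.NH28.sum_nn L v) t)
    have hone : ∀ i, ∑ v ∈ S, (∑ w ∈ Pool.Agent.NH28.ab L v, Pool.Agent.NH28.nn v w *
          max (Pool.Agent.H85.W.Lh v (d i) (F i) x w) 0) / dL ≤
        height K x + Cb i * Module.finrank ℚ K := by
      intro i
      have hdi := hd0 i
      have hdi0 : (0 : ℝ) < d i := by linarith
      rw [← Finset.sum_div, div_le_iff₀ hdR]
      have hdisj : (S : Set (Place K)).PairwiseDisjoint (Pool.Agent.NH28.ab L) := by
        intro v _ v' _ hne
        rw [Function.onFun, Finset.disjoint_left]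
        intro w hw hw'
        exact hne (Pool.Agent.NH28.ov_unique (Pool.Agent.NH28.mem_ab.1 hw)
          (Pool.Agent.NH28.mem_ab.1 hw'))
      have h1 := hCb i L (S.biUnion (Pool.Agent.NH28.ab L)) x hx (hFx i)
      rw [Finset.sum_biUnion hdisj, hfq] at h1
      have h2 : ∑ v ∈ S, ∑ w ∈ Pool.Agent.NH28.ab L v, Pool.Agent.NH28.nn v w *
          max (Pool.Agent.H85.W.Lh v (d i) (F i) x w) 0 =
          (∑ v ∈ S, ∑ w ∈ Pool.Agent.NH28.ab L v, Pool.Agent.W180.OP.wt w *
            max 0 (Pool.Agent.W180.OP.lam (Pool.Agent.W180.OP.av w) (d i)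
              (Pool.Agent.W180.OP.bc L (F i)) x)) / d i := by
        rw [Finset.sum_div]
        refine Finset.sum_congr rfl fun v _ => ?_
        rw [Finset.sum_div]
        refine Finset.sum_congr rfl fun w hw => ?_
        have hnn := Pool.Agent.NH28.one_le_nn (Pool.Agent.NH28.mem_ab.1 hw)
        have hnn0 : 0 < Pool.Agent.NH28.nn v w := by linarith
        have hwt := Pool.Agent.W180.OP.wt_nonneg w
        unfold Pool.Agent.H85.W.Lh
        have h3 : max (Pool.Agent.W180.OP.wt w * Pool.Agent.W180.OP.lam
            (Pool.Agent.W180.OP.av w) (d i) (Pool.Agent.W180.OP.bc L (F i)) x /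
              (d i * Pool.Agent.NH28.nn v w)) 0 = Pool.Agent.W180.OP.wt w *
            max 0 (Pool.Agent.W180.OP.lam (Pool.Agent.W180.OP.av w) (d i)
              (Pool.Agent.W180.OP.bc L (F i)) x) / (d i * Pool.Agent.NH28.nn v w) := by
          rw [max_comm]
          rcases le_total 0 (Pool.Agent.W180.OP.lam (Pool.Agent.W180.OP.av w) (d i)
              (Pool.Agent.W180.OP.bc L (F i)) x) with h4 | h4
          · rw [max_eq_right h4, max_eq_right (by positivity)]
          · rw [max_eq_left h4, mul_zero, zero_div]
            refine max_eq_left (div_nonpos_of_nonpos_of_nonneg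
              (mul_nonpos_of_nonneg_of_nonpos hwt h4) (by positivity))
        rw [h3]
        field_simp
      rw [h2, div_le_iff₀ hdi0]
      refine h1.trans ?_
      have h3 : height K x * dL = Height.logHeight x := by
        unfold height
        rw [div_mul_cancel₀]
        exact hdR.ne'
      have h4 : (height K x + Cb i * Module.finrank ℚ K) * dL * d i =
          d i * (height K x * dL) + Cb i * (Module.finrank ℚ K * dL) * d i := by ring
      rw [h4, h3]
      have h5 : 0 ≤ Cb i * (Module.finrank ℚ K * dL) :=
        mul_nonneg (hCb0 i) (by positivity)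
      have h6 := le_mul_of_one_le_right h5 hdi
      linarith
    have h1 : proximity S F d x ≤ q * height K x + ∑ i, Cb i * Module.finrank ℚ K := by
      refine (hprox L S x).trans ?_
      rw [Finset.sum_comm]
      refine (Finset.sum_le_sum fun i _ => hone i).trans ?_
      rw [Finset.sum_add_distrib, Finset.sum_const, Finset.card_univ, Fintype.card_fin,
        nsmul_eq_mul]
    have h2 := hh0 L x
    have hq' : (q : ℝ) ≤ ν + 1 := by exact_mod_cast hq.le
    have h3 := mul_le_mul_of_nonneg_right hq' h2
    have h4 := mul_nonneg hε.le h2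
    linarith
  · -- many divisors
    rcases Nat.eq_zero_or_pos r with hr0 | hr
    · subst hr0
      refine ⟨1, fun h => hX.ne_top ((Ideal.eq_top_iff_one _).2 h), ⟨0,
        MvPolynomial.isHomogeneous_one _ _⟩, fun S _ => ⟨0, ?_⟩⟩
      intro L _ _ _ hrL
      have hdL : 0 < Module.finrank K L := Module.finrank_pos
      omega
    obtain ⟨Z, hZ, hZh, hmain⟩ := Pool.Agent.H85.W.t2ch hν hr hq G g hG hX
      (by rw [hdim]; push_cast; rfl) F d hd hF (fun e L _ _ x h1 h2 => hgp e L x h1 h2)
      (ε / (ν + 1)) (by positivity)
    refine ⟨Z, hZ, hZh, fun S _ => ?_⟩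
    obtain ⟨C, hC0, hC⟩ := hmain S
    refine ⟨(ν + 1) * C, ?_⟩
    intro L _ _ _ hrL x hx hres hGx hFx hZx
    have hdL : 0 < Module.finrank K L := Module.finrank_pos
    have h1 := hC L hrL x hx hGx hres hZx hFx
    set dL : ℝ := (Module.finrank K L : ℝ) with hdLd
    have hdR : 0 < dL := by rw [hdLd]; exact_mod_cast hdL
    have hdR1 : 1 ≤ dL := by rw [hdLd]; exact_mod_cast hdL
    have h2 : proximity S F d x - spread S ν F d x ≤ (ν + 1) * ∑ v ∈ S, ∑ i,
        ∫ t in Set.Ioi (0 : ℝ), Pool.Agent.H85.W.Vf ν (Pool.Agent.H85.W.PP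
          (Pool.Agent.NH28.ab L v) (Pool.Agent.NH28.nn v) dL
          (Pool.Agent.H85.W.Lh v (d i) (F i) x) t) := by
      have h3 := hprox L S x
      rw [hspread L S x]
      have h4 : ∀ v ∈ S, ∀ i : Fin q, (∑ w ∈ Pool.Agent.NH28.ab L v, Pool.Agent.NH28.nn v w *
          max (Pool.Agent.H85.W.Lh v (d i) (F i) x w) 0) / dL - ∫ t in Set.Ioi (0 : ℝ),
        gam ν (Pool.Agent.H85.W.PP (Pool.Agent.NH28.ab L v) (Pool.Agent.NH28.nn v)
          dL (Pool.Agent.H85.W.Lh v (d i) (F i) x) t) = (ν + 1) *
        ∫ t in Set.Ioi (0 : ℝ), Pool.Agent.H85.W.Vf ν (Pool.Agent.H85.W.PP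
          (Pool.Agent.NH28.ab L v) (Pool.Agent.NH28.nn v) dL
          (Pool.Agent.H85.W.Lh v (d i) (F i) x) t) := by
        intro v _ i
        have hn : ∀ w ∈ Pool.Agent.NH28.ab L v, 0 ≤ Pool.Agent.NH28.nn v w := fun w _ =>
          Pool.Agent.NH28.nn_nonneg v w
        have hsum : ∑ w ∈ Pool.Agent.NH28.ab L v, Pool.Agent.NH28.nn v w = dL :=
          Pool.Agent.NH28.sum_nn L v
        rw [← Pool.Agent.H85.W.int_PP (Pool.Agent.NH28.ab L v) (Pool.Agent.NH28.nn v) hn dL hdR
          hsum]
        have hi1 : IntegrableOn (fun t => Pool.Agent.H85.W.PP (Pool.Agent.NH28.ab L v)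
            (Pool.Agent.NH28.nn v) dL (Pool.Agent.H85.W.Lh v (d i) (F i) x) t)
            (Set.Ioi 0) :=
          Pool.Agent.H85.W.PP_integrable _ _ hn dL hdR _ hsum (fun s => s) measurable_id 1
            (fun s h1 h2 => by rw [abs_of_nonneg h1]; exact h2) rfl
        have hi2 : IntegrableOn (fun t => Pool.Agent.H85.W.Vf ν (Pool.Agent.H85.W.PP
            (Pool.Agent.NH28.ab L v)
            (Pool.Agent.NH28.nn v) dL (Pool.Agent.H85.W.Lh v (d i) (F i) x) t))
            (Set.Ioi 0) :=
          Pool.Agent.H85.W.PP_integrable _ _ hn dL hdR _ hsum (Pool.Agent.H85.W.Vf ν)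
            (Pool.Agent.H85.W.Vf_meas ν) 1 (fun s h1 h2 => Pool.Agent.H85.W.Vf_le h1 h2)
            (Pool.Agent.H85.W.Vf_zero ν)
        simp only [hgam]
        rw [integral_sub hi1 (hi2.const_mul _), integral_const_mul]
        ring
      have h5 : (∑ v ∈ S, ∑ i, (∑ w ∈ Pool.Agent.NH28.ab L v, Pool.Agent.NH28.nn v w *
          max (Pool.Agent.H85.W.Lh v (d i) (F i) x w) 0) / dL) - ∑ v ∈ S, ∑ i,
            ∫ t in Set.Ioi (0 : ℝ),
        gam ν (Pool.Agent.H85.W.PP (Pool.Agent.NH28.ab L v) (Pool.Agent.NH28.nn v)
          dL (Pool.Agent.H85.W.Lh v (d i) (F i) x) t) = (ν + 1) * ∑ v ∈ S, ∑ i,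
        ∫ t in Set.Ioi (0 : ℝ), Pool.Agent.H85.W.Vf ν (Pool.Agent.H85.W.PP
          (Pool.Agent.NH28.ab L v) (Pool.Agent.NH28.nn v) dL
          (Pool.Agent.H85.W.Lh v (d i) (F i) x) t) := by
        rw [← Finset.sum_sub_distrib, Finset.mul_sum]
        refine Finset.sum_congr rfl fun v hv => ?_
        rw [← Finset.sum_sub_distrib, Finset.mul_sum]
        exact Finset.sum_congr rfl fun i _ => h4 v hv i
      linarith
    have h3 : dL * ∑ v ∈ S, ∑ i,
        ∫ t in Set.Ioi (0 : ℝ), Pool.Agent.H85.W.Vf ν (Pool.Agent.H85.W.PP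
          (Pool.Agent.NH28.ab L v) (Pool.Agent.NH28.nn v) dL
          (Pool.Agent.H85.W.Lh v (d i) (F i) x) t) ≤
        dL * ((1 + ε / (ν + 1)) * height K x + C) := by
      have h4 : dL * ∑ v ∈ S, ∑ i,
          ∫ t in Set.Ioi (0 : ℝ), Pool.Agent.H85.W.Vf ν (Pool.Agent.H85.W.PP
            (Pool.Agent.NH28.ab L v) (Pool.Agent.NH28.nn v) dL
            (Pool.Agent.H85.W.Lh v (d i) (F i) x) t) = ∑ v ∈ S, ∑ i,
          dL * ∫ t in Set.Ioi (0 : ℝ), Pool.Agent.H85.W.Vf ν (Pool.Agent.H85.W.PP
            (Pool.Agent.NH28.ab L v) (Pool.Agent.NH28.nn v) dL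
            (Pool.Agent.H85.W.Lh v (d i) (F i) x) t) := by
        rw [Finset.mul_sum]
        exact Finset.sum_congr rfl fun v _ => Finset.mul_sum _ _ _
      rw [h4]
      refine h1.trans ?_
      have h5 : height K x * dL = Height.logHeight x := by
        unfold height
        rw [div_mul_cancel₀]
        exact hdR.ne'
      rw [← h5]
      have h6 : C ≤ dL * C := le_mul_of_one_le_left hC0 hdR1
      linarith
    have h4 := le_of_mul_le_mul_left h3 hdR
    have h5 := mul_le_mul_of_nonneg_left h4 hν1.le
    have h6 : ((ν : ℝ) + 1) * ((1 + ε / (ν + 1)) * height K x + C) =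
        (ν + 1) * height K x + ε * height K x + (ν + 1) * C := by
      field_simp
    rw [h6] at h5
    linarith

end Pool.Agent.Results.MP_71c16a_nt.SubspaceSpread
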