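import Mathlib
import Pool.Agent.H84.VU.P

/-!
# Vojta's inequality for all algebraic points of subvarieties of tori and of their Kummer covers

Let `U` be a closed irreducible subvariety of the torus `𝔾_m ^ N` over a number field `k`, given by a prime
ideal `I`. For `m ≥ 1` let `U_m` be the preimage of `U` under the `m`-th power map of the torus, a finite
étale cover of `U`, and let `(X_m, D_m)` be a suitable (toroidal) normal crossings compactification of `U_m`, so that
`K_{X_m} + D_m` is the pullback of `K_{X_1} + D_1`. If a point `P` of `U_m` lies above `x`, then `m h(P) = h(x)`.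
`U` is of logarithmic general type (`K_{X_1} + D_1` is big) if and only if it is not stable under a
positive-dimensional subtorus (Kawamata).

Let `P` be a point of `U_m` over a number field `F ⊇ k`. Outside a finite set of places `P` reduces to a point of
`D_m` if and only if some coordinate of `P` is not a unit, so `truncated` is the truncated counting function
`N_S^{(1)}(D_m, P)`, relative to `k`, up to a bounded summand. As
`N_S^{(1)}(D_m, P) ≤ h_{D_m}(P) - ∑_{ν ∈ S} λ_{D_m}(P, ν) + O(1)`,
Vojta's inequality follows from `h_{K_{X_m} + D_m}(P) ≤ N_S^{(1)}(D_m, P) + d_k(P) + ε h_A(P) + O(1)`. We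
consider the inequality `θ m h(P) ≤ N_S^{(1)}(D_m, P) + d_k(F) + c`, which implies it if `θ` is so large that
`h_{K_{X_1} + D_1} ≤ θ h + ε h_A + O(1)`.

All number fields `L ⊇ k`, of all degrees, are considered at once. Let `x ∈ U(L)` have height `h(x) ≤ log B`
(relative to `k`) such that some algebraic point of some `U_m` above `x`, defined over `F ⊇ L`, violates the
inequality. Then `N_S^{(1)}(x) + d_k(L) ≤ θ h(x) + c'`, and it is a trivial fact that there are at most
`(M B ^ (θ + ε)) ^ [L : k] / |disc L|` such points `x` in `U(L)`. We show that there is a power saving in `B`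
and `|disc L|`, off a proper closed set free of `S`, `θ`, `c`, `ε` and `L`, with constants free of `L`, if and
only if `U` is not stable under a positive-dimensional subtorus.

The proof makes the one of our result on the truncated counting function over one field, with constants
depending on the field (`Pool.Agent.H84.VA`), uniform in all number fields, by the uniform bounds of
`Pool.Graph.R_seed8.R366.UC` for the numbers of the elements with given support and of the sets of places, and
combines it with the relation between discriminants and truncated counting functions of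
`Pool.Graph.R_seed8.TH905.VF`. For stable `U` the points `(t ^ (w_i) x_i)`, `t` an integer of `L`, whose heights
are known up to bounded factors, show that there is no saving.
-/

set_option autoImplicit false

open MvPolynomial NumberField IsDedekindDomain Height Finset

namespace Pool.Agent.Results.MP_71c16a_nt.VeryAffineAllDegrees

/-- The points of the zero set of `I` in the torus, over a field `F`. -/
def TorusPoints {k : Type} [Field k] {N : ℕ} (I : Ideal (MvPolynomial (Fin N) k)) (F : Type) [Field F]
    [Algebra k F] : Set (Fin N → F) :=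
  {x | (∀ i, x i ≠ 0) ∧ ∀ g ∈ I, aeval x g = 0}

/-- The zero set of `I` in the torus is stable under a one-parameter subgroup `t ↦ (t ^ w i)`, `w ≠ 0`, that
is under a positive-dimensional subtorus. -/
def StableUnderTorus {k : Type} [Field k] {N : ℕ} (I : Ideal (MvPolynomial (Fin N) k)) : Prop :=
  ∃ w : Fin N → ℤ, w ≠ 0 ∧ ∀ x ∈ TorusPoints I (AlgebraicClosure k), ∀ t : AlgebraicClosure k, t ≠ 0 →
    (fun i => t ^ w i * x i) ∈ TorusPoints I (AlgebraicClosure k)

/-- The logarithmic height `h(P)`, relative to `k`, of the point `(1 : P_1 : … : P_N)` over the extension `F`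
of `k`. -/
noncomputable def height (k : Type) {F : Type} [Field k] [NumberField k] [Field F] [NumberField F]
    [Algebra k F] {N : ℕ} (P : Fin N → F) : ℝ :=
  logHeight (Fin.cons 1 P : Fin (N + 1) → F) / Module.finrank k F

/-- The logarithmic discriminant `d_k(F) = log |disc F| / [F : k] - log |disc k|`. -/
noncomputable def logDisc (k F : Type) [Field k] [NumberField k] [Field F] [NumberField F]
    [Algebra k F] : ℝ :=
  Real.log |(discr F : ℝ)| / Module.finrank k F - Real.log |(discr k : ℝ)|

/-- The truncated counting function of the boundary of the torus at a point `P` over `F`, relative to `k`: the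
sum of `log N_w / [F : k]` over the finite places `w` of `F`, not above a prime in `S`, at which some coordinate
of `P` is not a unit. -/
noncomputable def truncated (k : Type) {F : Type} [Field k] [NumberField k] [Field F] [NumberField F]
    [Algebra k F] {N : ℕ} (S : Finset (HeightOneSpectrum (𝓞 k))) (P : Fin N → F) : ℝ :=
  (∑ᶠ w : FinitePlace F, open scoped Classical in
    if (∀ v ∈ S, ¬ w.maximalIdeal.asIdeal.LiesOver v.asIdeal) ∧ ∃ i, w (P i) ≠ 1 then
      Real.log (Ideal.absNorm w.maximalIdeal.asIdeal : ℝ) else 0) / Module.finrank k F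

/-- For some `m ≥ 1`, there is a point `P` with coordinates in a number field `F ⊇ L` with `P ^ m = x` which
violates the inequality `θ m h(P) ≤ N_S^{(1)}(P) + d_k(F) + c`. -/
def Violates {k : Type} [Field k] [NumberField k] (S : Finset (HeightOneSpectrum (𝓞 k))) (θ c : ℝ)
    {L : Type} [Field L] [NumberField L] [Algebra k L] {N : ℕ} (x : Fin N → L) : Prop :=
  ∃ (m : ℕ) (F : Type) (_ : Field F) (_ : NumberField F) (_ : Algebra k F) (_ : Algebra L F)
    (_ : IsScalarTower k L F) (P : Fin N → F), 1 ≤ m ∧ (∀ i, P i ^ m = algebraMap L F (x i)) ∧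
    truncated k S P + logDisc k F + c < θ * (m * height k P)

/-- The points `x` of `U(L)` off `f = 0` of height at most `log B` above which some point of some `U_m`
violates the inequality. -/
def Exceptional {k : Type} [Field k] [NumberField k] {N : ℕ} (I : Ideal (MvPolynomial (Fin N) k))
    (f : MvPolynomial (Fin N) k) (S : Finset (HeightOneSpectrum (𝓞 k))) (θ c : ℝ) (L : Type) [Field L]
    [NumberField L] [Algebra k L] (B : ℝ) : Set (Fin N → L) :=
  {x | x ∈ TorusPoints I L ∧ aeval x f ≠ 0 ∧ height k x ≤ Real.log B ∧ Violates S θ c x}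

lemma violates_iff {k : Type} [Field k] [NumberField k] {S : Finset (HeightOneSpectrum (𝓞 k))} {θ c : ℝ}
    {L : Type} [Field L] [NumberField L] [Algebra k L] {N : ℕ} {x : Fin N → L} :
    Violates S θ c x ↔ Pool.Agent.H84.VU.Viol S θ c x := by
  constructor
  · rintro ⟨m, F, i1, i2, i3, i4, i5, P, hm, hP, hv⟩
    refine ⟨m, F, i1, i2, i3, i4, i5, P, by omega, hP, ?_⟩
    calc _ = truncated k S P + logDisc k F + c := by
          rw [add_comm (truncated k S P)]
          rfl
      _ < _ := hv
      _ = _ := rfl
  · rintro ⟨m, F, i1, i2, i3, i4, i5, P, hm, hP, hv⟩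
    refine ⟨m, F, i1, i2, i3, i4, i5, P, by omega, hP, ?_⟩
    calc truncated k S P + logDisc k F + c = logDisc k F + truncated k S P + c := by
          rw [add_comm (truncated k S P)]
      _ < _ := hv
      _ = _ := rfl

lemma exc_eq {k : Type} [Field k] [NumberField k] {N : ℕ} (I : Ideal (MvPolynomial (Fin N) k))
    (f : MvPolynomial (Fin N) k) (S : Finset (HeightOneSpectrum (𝓞 k))) (θ c : ℝ) (L : Type) [Field L]
    [NumberField L] [Algebra k L] (B : ℝ) :
    Exceptional I f S θ c L B = Pool.Agent.H84.VU.Exc I f S θ c L B := by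
  have hd : (0 : ℝ) < Module.finrank k L := by exact_mod_cast Module.finrank_pos
  ext x
  constructor
  · rintro ⟨⟨h1, h2⟩, h3, h4, h5⟩
    refine ⟨h1, h2, h3, ?_, violates_iff.1 h5⟩
    unfold height at h4
    rw [div_le_iff₀ hd, mul_comm] at h4
    exact h4
  · rintro ⟨h1, h2, h3, h4, h5⟩
    refine ⟨⟨h1, h2⟩, h3, ?_, violates_iff.2 h5⟩
    unfold height
    rw [div_le_iff₀ hd, mul_comm]
    exact h4

lemma stable_iff {k : Type} [Field k] {N : ℕ} (I : Ideal (MvPolynomial (Fin N) k)) :
    StableUnderTorus I ↔ ∃ w : Fin N → ℤ, w ≠ 0 ∧ Pool.Agent.H84.VA.StableUnder I w := by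
  constructor
  · rintro ⟨w, hw, h⟩
    exact ⟨w, hw, fun x hx hx0 t ht => (h x ⟨hx0, hx⟩ t ht).2⟩
  · rintro ⟨w, hw, h⟩
    refine ⟨w, hw, fun x hx t ht => ⟨fun i => mul_ne_zero (zpow_ne_zero _ ht) (hx.1 i), h x hx.2 hx.1 t ht⟩⟩

/-- **Vojta's inequality for all algebraic points of subvarieties of tori and of their Kummer covers.** Let
`U` be a closed irreducible subvariety of a torus over a number field `k`. Then `U` is not stable under a
positive-dimensional subtorus (it is of logarithmic general type) if and only if there are `0 < ν < 1` and a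
proper closed subset `f = 0` of `U` such that for all finite `S`, `θ ≥ 0`, `c` and `ε > 0` there is `M` such
that for ALL number fields `L ⊇ k`, of all degrees, and `B ≥ 1`, all but at most
`(M B ^ (θ (1 - ν) + ε)) ^ [L : k] / |disc L| ^ (1 - ν)` of the points `x` of `U(L)` off `f = 0` with `h(x) ≤ log B`
have the following property: ALL algebraic points `P` of ALL the covers `U_m`, `m ≥ 1`, above `x`, defined over any
number field `F ⊇ L`, satisfy `θ m h(P) ≤ N_S^{(1)}(P) + d_k(F) + c`. -/
theorem result (k : Type) [Field k] [NumberField k] (N : ℕ) (I : Ideal (MvPolynomial (Fin N) k))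
    (hI : I.IsPrime) (hX : ∀ i, X i ∉ I) :
    ¬ StableUnderTorus I ↔ ∃ ν : ℝ, 0 < ν ∧ ν < 1 ∧ ∃ f : MvPolynomial (Fin N) k, f ∉ I ∧
      ∀ (S : Finset (HeightOneSpectrum (𝓞 k))) (θ c ε : ℝ), 0 ≤ θ → 0 < ε → ∃ M : ℝ, 0 < M ∧
        ∀ (L : Type) [Field L] [NumberField L] [Algebra k L] (B : ℝ), 1 ≤ B →
          (Exceptional I f S θ c L B).Finite ∧ ((Exceptional I f S θ c L B).ncard : ℝ) ≤
            (M * B ^ (θ * (1 - ν) + ε)) ^ Module.finrank k L / |(discr L : ℝ)| ^ (1 - ν) := by
  rw [stable_iff]
  constructor
  · intro h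
    obtain ⟨ν, h1, h2, f, h3, h4⟩ :=
      Pool.Agent.H84.VU.main I hI (Pool.Agent.H84.VA.notGraded_of_not_stable I h)
    refine ⟨ν, h1, h2, f, h3, fun S θ c ε hθ hε => ?_⟩
    obtain ⟨M, hM, h5⟩ := h4 S θ c ε hθ hε
    refine ⟨M, hM, fun L _ _ _ B hB => ?_⟩
    rw [exc_eq]
    exact h5 L B hB
  · rintro ⟨ν, h1, h2, f, h3, h4⟩ ⟨w, hw, hst⟩
    refine Pool.Agent.H84.VU.converse hI hX hw hst h3 h1 fun S θ c ε hθ hε => ?_
    obtain ⟨M, hM, h5⟩ := h4 S θ c ε hθ hε
    refine ⟨M, hM, fun L _ _ _ B hB => ?_⟩
    rw [← exc_eq]
    exact h5 L B hB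

end Pool.Agent.Results.MP_71c16a_nt.VeryAffineAllDegrees
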